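import Pool.Agent.V1178.FQ.HMain

/-!
# Voevodsky's smash-nilpotence conjecture and free groups of motivic automorphisms

Fix the dimension `n`, the codimension `m` and a class `P` of smooth projective varieties (for example
all of them, or one variety). If `W` is a self-correspondence of degree zero of a variety `X` of
dimension `n` which factors through a variety of dimension `n` in `P`, and `W ∘ W = 0`, then `1 + W`
is an automorphism of the Chow motive of `X`, and Voevodsky's conjecture for the varieties in `P`
predicts that it acts trivially on the homologically trivial cycles of codimension `m` of `X` modulo
smash-nilpotent cycles. Conversely, the homologically trivial cycles of codimension `m` on the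
varieties of dimension `n` in `P` are smash-nilpotent already if any two such automorphisms
`1 + W_0`, `1 + W_1` of any `X` satisfy a nontrivial relation there (which may depend on `X`, `W_0`,
`W_1`), and even if they have no free orbit on the lines of this space.
-/

set_option autoImplicit false

open CategoryTheory AlgebraicGeometry

universe u v w

namespace Pool.Agent.Results.MP_bf8edd_ag.FreeSubgroups

open Pool.Agent.H914 Pool.Agent.H914.VarClass Pool.Agent.H914.VarClass.Obj Pool.Agent.W492.BB
  Pool.Agent.TH133 Pool.Agent.V1157.RC Pool.Agent.V1178.FQ

/-- Let `P` be a class of varieties of which those of dimension `n` have sufficiently general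
complete intersections in `S × S` (`HasIntersection`, a consequence of the theorem of Bertini). The
following are equivalent:

* the homologically trivial cycles of codimension `m` on the varieties of dimension `n` in `P` are
  smash-nilpotent;
* for all varieties `X` of dimension `n` and all self-correspondences `W_0`, `W_1` of `X` of degree
  zero which factor through varieties of dimension `n` in `P` and satisfy `W_i ∘ W_i = 0`, the
  automorphisms `1 + W_0`, `1 + W_1` satisfy a nontrivial relation on the homologically trivial cycles
  of codimension `m` on `X` modulo smash-nilpotent cycles;
* for all such `X`, `W_0`, `W_1` and each homologically trivial cycle `x` of codimension `m` on `X` there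
  are a nontrivial element `w` of the free group of rank two and a rational number `q` such that
  `w(1 + W_0, 1 + W_1) x - q x` is smash-nilpotent. -/
theorem result {k : Type u} [Field k] {𝒱 : VarClass k} {C : TheoryData.{u, v, 0} 𝒱 ℚ}
    [IsChowProj C] {K : Type w} [Field K] (H : WeilTheoryData.{u, v, w} C K) [IsWeilProj H]
    (P : 𝒱.Obj → Prop) (n m : ℕ)
    (hI : ∀ S : 𝒱.Obj, P S → S.dim = n → HasIntersection C n S S) :
    List.TFAE [VoevodskyHom H P n m, NoFreePairsHom H P n m, NoFreeLinesHom H P n m] :=
  main_hom H hI

end Pool.Agent.Results.MP_bf8edd_ag.FreeSubgroups
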