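import Pool.Agent.V1157.PI.Final

/-!
# Voevodsky's conjecture and polynomial identities for homologically trivial correspondences
-/

open CategoryTheory AlgebraicGeometry

universe u v w

namespace Pool.Agent.Results.MP_bf8edd_ag.PolynomialIdentity

open Pool.Agent.H914 Pool.Agent.H914.VarClass Pool.Agent.H914.VarClass.Obj Pool.Agent.W492.BB
  Pool.Agent.W550.Corr Pool.Agent.TH133 Pool.Agent.TH829.Prime Pool.Agent.V1157.PI

/-- Let `𝒱` be a class of smooth projective varieties closed under products (for the problem: all
smooth projective varieties over `ℂ`), `H` a Weil cohomology theory on `𝒱` (for the problem: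
singular cohomology), and let `c` be a function, not identically zero, with rational values on the
permutations of `d ≥ 1` letters. Then the homologically trivial classes of all codimensions on all
varieties of `𝒱` are smash-nilpotent if and only if for all varieties `X` of `𝒱` and all
homologically trivial `W_1, …, W_d ∈ CH^(dim X)(X × X)` the multilinear polynomial
`∑ c(σ) W_{σ(1)} ∘ ⋯ ∘ W_{σ(d)}` is smash-nilpotent. For example (`d = 2`, the commutator): if and
only if all commutators of homologically trivial self-correspondences are smash-nilpotent. -/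
theorem result {k : Type u} [Field k] {𝒱 : VarClass k} {C : TheoryData.{u, v, 0} 𝒱 ℚ}
    [IsChowProj C] {K : Type w} [Field K] (H : WeilTheoryData.{u, v, w} C K) [IsWeilProj H]
    (d : ℕ) (hd : 0 < d) (c : Equiv.Perm (Fin d) → ℚ) (hc : c ≠ 0) :
    (∀ (X : 𝒱.Obj) (i : ℤ) (a : C.A X), C.Deg i a → H.cl a = 0 → SmashNilpotent C a) ↔
      ∀ (X : 𝒱.Obj) (W : Fin d → C.A (X.prod X)),
        (∀ i, C.Deg X.dim (W i) ∧ H.cl (W i) = 0) → SmashNilpotent C (polyVal C c W) := by
  have h := smash_iff (isAdequate_homFam H) (isPrime_homFam H).one_notMem hd hc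
  exact ⟨fun h1 => h.1 fun X i a ha => h1 X i a ha.1 ha.2,
    fun h1 X i a ha hna => h.2 h1 X i a ⟨ha, hna⟩⟩

end Pool.Agent.Results.MP_bf8edd_ag.PolynomialIdentity
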