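import Pool.Agent.H255R.MR.Adeq

/-!
# Smash-nilpotence for products of regular surfaces and for products of curves
-/

open CategoryTheory AlgebraicGeometry

universe u v w

namespace Pool.Agent.Results.MP_bf8edd_ag.RegularSurfaces

open Pool.Agent.H914 Pool.Agent.H914.VarClass Pool.Agent.H914.VarClass.Obj Pool.Agent.W492.BB
  Pool.Agent.W550.Corr Pool.Agent.TH133 Pool.Agent.TH829.Prime Pool.Agent.H255R.HR Pool.Agent.H255R.MR

/-- The homologically trivial cycle classes of codimension at most `R` on `X` are smash-nilpotent. -/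
def HomSmash {k : Type u} [Field k] {𝒱 : VarClass k} {C : TheoryData.{u, v, 0} 𝒱 ℚ} {F : Type w}
    [Field F] (H : WeilTheoryData.{u, v, w} C F) (R : ℤ) (X : 𝒱.Obj) : Prop :=
  ∀ r ≤ R, ∀ a : C.A X, C.Deg r a → H.cl a = 0 → SmashNilpotent C a

/-- Voevodsky's conjecture for the smooth projective varieties over an algebraically closed field
(over `ℂ` in the problem). Let `𝒞` be a class of curves with `HasGalQuotients` (for example all curves
over `ℂ`, or one hyperelliptic curve). For all varieties `U` and all `R` and `N` the following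
statements are equivalent.

1. Voevodsky's conjecture in codimension at most `R` holds for the varieties `U × A` and `U × A × S`,
where `A` is a product of at most `N` regular surfaces dominated by products of two curves in `𝒞`,
and `S` is a curve in `𝒞`.
2. The same without the condition that the surfaces be regular.
3. Voevodsky's conjecture in codimension at most `R` holds for `U × W`, where `W` is a product of at most
`2 N + 1` curves in `𝒞`.
4. Voevodsky's conjecture in codimension at most `R` holds for all varieties which are dominated by varieties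
`U × W` as in 3. -/
theorem result {k : Type u} [Field k] {𝒱 : VarClass k} (C : TheoryData.{u, v, 0} 𝒱 ℚ)
    [IsChowProj C] (hC : IsModTheory (chowMod C)) {F : Type w} [Field F] [CharZero F]
    (H : WeilTheoryData.{u, v, w} C F) [IsWeilProj H] (𝒞 : 𝒱.Obj → Prop)
    (hG : HasGalQuotients.{u, v, w, v} H 𝒞) (U : 𝒱.Obj) (R : ℤ) (N : ℕ) :
    List.TFAE [
      ∀ m ≤ N, ∀ A : 𝒱.Obj, IsProdOf U (IsRegDominated.{u, v, w, v} H 𝒞) m A →
        HomSmash H R A ∧ ∀ S : 𝒱.Obj, 𝒞 S → HomSmash H R (A.prod S),
      ∀ m ≤ N, ∀ A : 𝒱.Obj, IsProdOf U (IsDominated.{u, v, v} C 𝒞) m A →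
        HomSmash H R A ∧ ∀ S : 𝒱.Obj, 𝒞 S → HomSmash H R (A.prod S),
      ∀ l ≤ 2 * N + 1, ∀ W : 𝒱.Obj, IsProdOf U 𝒞 l W → HomSmash H R W,
      ∀ l ≤ 2 * N + 1, ∀ W X : 𝒱.Obj, IsProdOf U 𝒞 l W → IsDominatedBy C W X → HomSmash H R X] :=
  tfae1 (M := chowMod C) (𝓜 := adFam (isAdequate_homI H)) (𝓝 := smashFam C) hG U R N _ fun _ =>
    ⟨fun h r hr a ha => ⟨ha.1, (smashNilpotent_iff ha.1).1 (h r hr a ha.1 ha.2)⟩,
      fun h r hr a ha h0 => (smashNilpotent_iff ha).2 (h r hr a ⟨ha, h0⟩).2⟩

end Pool.Agent.Results.MP_bf8edd_ag.RegularSurfaces
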