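import Pool.Agent.V1126.BN.Word

/-!
# Voevodsky's conjecture (homologically trivial cycles) and group relations between unipotent
correspondences
-/

open CategoryTheory AlgebraicGeometry

universe u v w

namespace Pool.Agent.Results.MP_bf8edd_ag.UniformWord

open Pool.Agent.H914 Pool.Agent.H914.VarClass Pool.Agent.H914.VarClass.Obj Pool.Agent.W492.BB
  Pool.Agent.W550.Corr Pool.Agent.TH133 Pool.Agent.TH829.Prime Pool.Agent.V1157.PI
  Pool.Agent.V1126.BN

/-- Let `𝒱` be a class of smooth projective varieties closed under products (for the problem: all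
smooth projective varieties over `ℂ`), `H` a Weil cohomology (Betti cohomology), and let `w ≠ 1`
be an element of the free group on two generators, for example their commutator. The following are
equivalent:
1. all homologically trivial classes on the varieties of `𝒱` are smash-nilpotent;
2. for all `X` in `𝒱` and all homologically trivial `W_0, W_1 ∈ CH^(dim X)(X × X)` with
   `W_0 ∘ W_0 = 0` and `W_1 ∘ W_1 = 0` the class `w(1 + W_0, 1 + W_1) - 1` is smash-nilpotent;
3. there is some `w' ≠ 1` such that this holds for `w'`. -/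
theorem result {k : Type u} [Field k] {𝒱 : VarClass k} {C : TheoryData.{u, v, 0} 𝒱 ℚ}
    [IsChowProj C] {K : Type w} [Field K] (H : WeilTheoryData.{u, v, w} C K) [IsWeilProj H]
    (w : FreeGroup (Fin 2)) (hw : w ≠ 1) :
    List.TFAE [
      ∀ (X : 𝒱.Obj) (i : ℤ) (a : C.A X), C.Deg i a → H.cl a = 0 → SmashNilpotent C a,
      SmashRelation C (homFam H) w,
      ∃ w' : FreeGroup (Fin 2), w' ≠ 1 ∧ SmashRelation C (homFam H) w'] := by
  have h := fun {w : FreeGroup (Fin 2)} (hw : w ≠ 1) =>
    word_smash_iff (isAdequate_homFam H) (isPrime_homFam H).one_notMem hw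
  tfae_have 1 → 2 := fun h1 => (h hw).1 fun X i a ha => h1 X i a ha.1 ha.2
  tfae_have 2 → 3 := fun h1 => ⟨w, hw, h1⟩
  tfae_have 3 → 1 := fun ⟨w', hw', h1⟩ X i a ha hna => (h hw').2 h1 X i a ⟨ha, hna⟩
  tfae_finish

end Pool.Agent.Results.MP_bf8edd_ag.UniformWord
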